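import Pool.Agent.Helper20.Oldroyd.Src

/-!
Obstacle identification for the linearised Oldroyd model: the answer to Q1 is negative.
-/

set_option autoImplicit false

noncomputable section

namespace Pool.Agent.Results.MP_b53110_an.InvisibleFlows

open Set MeasureTheory Filter Topology Metric Oldroyd
open scoped ContDiff

/-- Let `d ≥ 2`, `Ω` a bounded connected open set with smooth boundary, `T, ν, α, β > 0`,
`0 < t₀ < t₁ < t₂ ≤ T` and `N` arbitrary. (1) For ALL obstacles `D₁`, `D₂` in `Ω` there is a source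
`f` satisfying the hypotheses of the problem (with `m = 1`, `a₁ = 0`, `a₂ = 1`, `r₁ = 0`, a smooth
compactly supported divergence free `f₀` and `|r₂| ≤ C (t - t₁)^N`) and classical solutions
`(u₁, p₁, τ₁)` and `(u₂, p₂, τ₂)` of the two systems whose normal stresses coincide on the whole of
`∂Ω × (0,T)`. (2) There are two different such obstacles, with connected complements in `Ω`. -/
theorem result (d : ℕ) (hd : 2 ≤ d) (Ω : Set (Sp d)) (hΩ : Domain Ω) (T ν α β t₀ t₁ t₂ : ℝ)
    (hν : 0 < ν) (hα : 0 < α) (hβ : 0 < β) (ht₀ : 0 < t₀) (ht₁ : t₀ < t₁) (ht₂ : t₁ < t₂)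
    (hT : t₂ ≤ T) (N : ℕ) :
    (∀ D₁ D₂ : Set (Sp d), Obstacle Ω D₁ → Obstacle Ω D₂ →
      ∃ f : ℝ → Sp d → Sp d, NiceSource Ω D₁ D₂ T t₀ t₁ t₂ N f ∧ SameStress Ω D₁ D₂ T ν α β f) ∧
    ∃ D₁ D₂ : Set (Sp d), Obstacle Ω D₁ ∧ Obstacle Ω D₂ ∧ D₁ ≠ D₂ ∧
      IsConnected (Ω \ closure D₁) ∧ IsConnected (Ω \ closure D₂) := by
  refine ⟨fun D₁ D₂ hD₁ hD₂ => ?_, exists_obstacles hd hΩ⟩
  obtain ⟨x0, r, hr, hrs⟩ := exists_free_ball hd hΩ hD₁.sub hD₂.sub
  -- stream function
  let bump : ContDiffBump x0 := ⟨r/2, r, by linarith, by linarith⟩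
  let ψ : Sp d → ℝ := fun x => bump x
  have hψ : ContDiff ℝ ∞ ψ := bump.contDiff
  have hψ1 : ψ x0 = 1 := bump.one_of_mem_closedBall (mem_closedBall_self (by positivity))
  have hψs : ∀ x, x ∉ closedBall x0 r → ψ x = 0 := fun x hx =>
    bump.zero_of_le_dist (by
      rw [mem_closedBall, not_le] at hx
      exact hx.le)
  have hK : IsClosed (closedBall x0 r) := isClosed_closedBall
  have hKc : IsCompact (closedBall x0 r) := isCompact_closedBall x0 r
  let a : Fin d := ⟨0, by omega⟩
  let b : Fin d := ⟨1, by omega⟩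
  have hab : a ≠ b := by
    intro h
    have := congrArg Fin.val h
    simp [a, b] at this
  have hG : ∀ k, ContDiff ℝ ∞ (GG ψ k) := GG_smooth ψ hψ
  have hGs : ∀ k x, x ∉ closedBall x0 r → GG ψ k x = 0 := fun k => GG_supp ψ hK hψs k
  have t₁pos : 0 < t₁ := ht₀.trans ht₁
  have hout : ∀ x, x ∉ Ω \ (closure D₁ ∪ closure D₂) → x ∉ closedBall x0 r := fun x hx h => hx (hrs h)
  let F1 : ℝ → Sp d → Sp d := fun t x =>
    (stp t₁ t) • rot a b ψ x - (remd ν α β t₁ N t) • rot a b (GG ψ (N+1+1)) x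
  let r₂ : ℝ → Sp d → Sp d := fun t x => - ((remd ν α β t₁ N t) • rot a b (GG ψ (N+1+1)) x)
  have hrc : ∀ k, Continuous (rot a b (GG ψ k)) := fun k => (rot_smooth a b (hG k)).continuous
  have hrb : ∀ k, ∃ C, ∀ x, ‖rot a b (GG ψ k) x‖ ≤ C := fun k =>
    bounded_of_supp (hrc k) hKc (rot_supp a b hK (hGs k))
  -- solutions
  have hu0 : ∀ t x, x ∉ closedBall x0 r → vel ν α β t₁ a b ψ (N+1) t x = 0 := by
    intro t x hx
    apply rot_supp a b hK (g := Psi ν α β t₁ ψ (N+1) t) _ x hx
    intro y hy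
    unfold Psi
    exact Finset.sum_eq_zero fun k _ => by rw [hGs k y hy, mul_zero]
  have hsol : ∀ D : Set (Sp d), (∀ x ∈ frontier D, x ∉ closedBall x0 r) →
      IsSol Ω D T ν α β (src ν α β t₁ a b ψ (N+1)) (vel ν α β t₁ a b ψ (N+1)) (fun _ _ => 0)
        (Oldroyd.ext ν α β t₁ a b ψ (N+1)) := by
    intro D hD
    refine ⟨fun t => vel_smooth ν α β t₁ a b hψ (N+1) t, fun t => contDiff_const, ?_,
      vel_cont ν α β t₁ a b hψ (N+1), ?_, fun x _ t _ i => momentum_eq ν α β t₁ a b hψ (N+1) t x i,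
      fun x _ t _ => divg_rot a b (Psi_smooth ν α β t₁ hψ (N+1) t) x,
      fun x _ t _ i j => elastic_eq ν α β t₁ a b hψ (N+1) t x i j, ?_⟩
    · intro t i j
      exact contDiff_const.mul (symGrad_smooth (rot_smooth a b (Psm_smooth ν α β t₁ hψ (N+1) t)) i j)
    · intro t x i j
      unfold Oldroyd.ext symGrad
      ring
    · intro x hx t _
      apply hu0
      rcases hx with hx | hx
      · apply hout
        intro h
        exact (hΩ.isOpen.frontier_eq ▸ hx).2 h.1
      · exact hD x hx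
  have hD1 : ∀ x ∈ frontier D₁, x ∉ closedBall x0 r := fun x hx =>
    hout x fun h => h.2 (Or.inl (frontier_subset_closure hx))
  have hD2 : ∀ x ∈ frontier D₂, x ∉ closedBall x0 r := fun x hx =>
    hout x fun h => h.2 (Or.inr (frontier_subset_closure hx))
  obtain ⟨C0, hC0⟩ := hrb 0
  obtain ⟨C2, hC2⟩ := hrb (N+1+1)
  have hcont0 : Continuous (rot a b ψ) := hrc 0
  refine ⟨src ν α β t₁ a b ψ (N+1), ⟨F1, r₂, rot a b ψ, ?_, rot_smooth a b hψ, ?_,
    fun x => divg_rot a b hψ x, ?_⟩, vel ν α β t₁ a b ψ (N+1),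
    vel ν α β t₁ a b ψ (N+1), fun _ _ => 0, fun _ _ => 0, Oldroyd.ext ν α β t₁ a b ψ (N+1),
    Oldroyd.ext ν α β t₁ a b ψ (N+1), hsol D₁ hD1, hsol D₂ hD2, fun _ _ _ _ _ _ => rfl⟩
  · -- the hypotheses on the source
    obtain ⟨Cr, hCr⟩ := bounded_of_cont (rem_cont (ν := ν) (α := α) (β := β) (t1 := t₁) (N+1)) 0 T
    obtain ⟨Cd, hCd⟩ := bounded_of_cont (remd_cont (ν := ν) (α := α) (β := β) (t1 := t₁) N) 0 T
    obtain ⟨Cm, hCm⟩ := bounded_of_cont (c := fun t => max (t - t₁) 0) (by fun_prop) 0 T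
    refine ⟨?_, ?_, ?_, ?_, ?_, ⟨?_, ?_⟩, ?_, ?_⟩
    · have m1 := memLp_prod hΩ.bounded (s := 0) (t := T) (c := fun t => max (t - t₁) 0)
        (v := rot a b ψ) (by fun_prop) hcont0 hCm hC0
      have m2 := memLp_prod hΩ.bounded (s := 0) (t := T) (c := rem ν α β t₁ (N+1))
        (v := rot a b (GG ψ (N+1+1))) (rem_cont (N+1)).measurable (hrc _) hCr hC2
      exact m1.sub m2
    · have m1 := memLp_prod hΩ.bounded (s := 0) (t := T) (c := stp t₁)
        (v := rot a b ψ) (stp_meas t₁) hcont0 (fun r _ => stp_le t₁ r) hC0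
      have m2 := memLp_prod hΩ.bounded (s := 0) (t := T) (c := remd ν α β t₁ N)
        (v := rot a b (GG ψ (N+1+1))) (remd_cont N).measurable (hrc _) hCd hC2
      exact m1.sub m2
    · intro x _ s t _ hst _
      have i1 : IntervalIntegrable (fun r => (stp t₁ r) • rot a b ψ x) volume s t :=
        ⟨(stp_int t₁ s t).1.smul_const _, (stp_int t₁ s t).2.smul_const _⟩
      have i2 : IntervalIntegrable (fun r => (remd ν α β t₁ N r) • rot a b (GG ψ (N+1+1)) x)
          volume s t := ((remd_cont N).smul continuous_const).intervalIntegrable _ _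
      refine ⟨i1.sub i2, ?_⟩
      show src ν α β t₁ a b ψ (N+1) t x - src ν α β t₁ a b ψ (N+1) s x =
        ∫ r in s..t, ((stp t₁ r) • rot a b ψ x - (remd ν α β t₁ N r) • rot a b (GG ψ (N+1+1)) x)
      rw [intervalIntegral.integral_sub i1 i2, intervalIntegral.integral_smul_const,
        intervalIntegral.integral_smul_const, stp_integral t₁ hst,
        intervalIntegral.integral_eq_sub_of_hasDerivAt (fun r _ => rem_deriv N r)
          ((remd_cont N).intervalIntegrable _ _)]
      unfold src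
      simp only [sub_smul]
      abel
    · intro t ht x _
      simp only [F1]
      rw [remd_zero t₁pos N ht.2.le]
      unfold stp
      rw [if_neg (not_le.mpr ht.2)]
      simp
    · intro t ht x _
      simp only [F1, r₂]
      unfold stp
      rw [if_pos ht.1.le, sub_eq_add_neg, one_smul]
    · have : IsFiniteMeasure (volume.restrict Ω) := ⟨by
        rw [Measure.restrict_apply_univ]
        exact hΩ.bounded.measure_lt_top⟩
      exact MemLp.of_bound hcont0.aestronglyMeasurable C0 (Eventually.of_forall hC0)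
    · intro h
      have h1 : EqOn (rot a b ψ) (fun _ => 0) Ω :=
        Measure.eqOn_open_of_ae_eq h hΩ.isOpen hcont0.continuousOn continuousOn_const
      have h2 : ∀ x, pd b ψ x = 0 := by
        intro x
        by_cases hx : x ∈ Ω
        · have h4 : rot a b ψ x a = 0 := by rw [h1 hx]; rfl
          rw [rot_apply] at h4
          unfold Oldroyd.cmp at h4
          rw [if_pos rfl, if_neg hab, sub_zero] at h4
          exact h4
        · exact pd_supp hK hψs b x (fun h => hx (hrs h).1)
      have h3 : ∀ s : ℝ, HasDerivAt (fun s : ℝ => ψ (x0 + s • EuclideanSpace.single b 1)) 0 s := by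
        intro s
        have hd1 : HasFDerivAt ψ (fderiv ℝ ψ (x0 + s • EuclideanSpace.single b 1))
            (x0 + s • EuclideanSpace.single b 1) :=
          (hψ.differentiable (by simp) _).hasFDerivAt
        have hd2 : HasDerivAt (fun s : ℝ => x0 + s • (EuclideanSpace.single b 1 : Sp d))
            (EuclideanSpace.single b 1) s := by
          have := ((hasDerivAt_id s).smul_const (EuclideanSpace.single b 1 : Sp d)).const_add x0
          simpa using this
        have h5 := hd1.comp_hasDerivAt s hd2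
        have h6 : fderiv ℝ ψ (x0 + s • EuclideanSpace.single b 1) (EuclideanSpace.single b 1) = 0 :=
          h2 _
        rw [h6] at h5
        exact h5
      have h4 : ψ (x0 + (0:ℝ) • EuclideanSpace.single b 1) =
          ψ (x0 + (r + 1) • EuclideanSpace.single b 1) :=
        is_const_of_deriv_eq_zero (fun s => (h3 s).differentiableAt) (fun s => (h3 s).deriv) 0 (r+1)
      rw [zero_smul, add_zero, hψ1] at h4
      have h5 : ψ (x0 + (r + 1) • EuclideanSpace.single b 1) = 0 := by
        apply hψs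
        rw [mem_closedBall, dist_eq_norm, add_sub_cancel_left, norm_smul, not_le,
          Real.norm_of_nonneg (by linarith)]
        have : ‖(EuclideanSpace.single b 1 : Sp d)‖ = 1 := by simp
        rw [this]
        linarith
      rw [h5] at h4
      exact one_ne_zero h4
    · obtain ⟨Cd, hCd⟩ := bounded_of_cont (remd_cont (ν := ν) (α := α) (β := β) (t1 := t₁) N) t₁ t₂
      have m2 := memLp_prod hΩ.bounded (s := t₁) (t := t₂) (c := remd ν α β t₁ N)
        (v := rot a b (GG ψ (N+1+1))) (remd_cont N).measurable (hrc _) hCd hC2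
      exact m2.neg
    · intro x hx
      have hx' : x ∉ closedBall x0 r := by
        apply hout
        rintro ⟨_, h⟩
        rcases hx with hx | hx
        · exact h (Or.inl (subset_closure hx))
        · exact h (Or.inr (subset_closure hx))
      refine ⟨rot_supp a b hK hψs x hx', fun t => ?_⟩
      show - ((remd ν α β t₁ N t) • rot a b (GG ψ (N+1+1)) x) = 0
      rw [rot_supp a b hK (hGs _) x hx', smul_zero, neg_zero]
  · exact HasCompactSupport.intro hKc fun x hx => rot_supp a b hK hψs x hx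
  · obtain ⟨C, hC, hCb⟩ := remd_bound hν.le hα.le hβ.le t₁pos T (by linarith) N
    refine ⟨C * max C2 0, fun t ht x => ?_⟩
    show ‖- ((remd ν α β t₁ N t) • rot a b (GG ψ (N+1+1)) x)‖ ≤ _
    rw [norm_neg, norm_smul, Real.norm_eq_abs]
    have h1 := hCb t ht.1.le (by linarith [ht.2])
    have h2 : ‖rot a b (GG ψ (N+1+1)) x‖ ≤ max C2 0 := (hC2 x).trans (le_max_left _ _)
    have h3 : 0 ≤ C * (t - t₁)^N := (abs_nonneg _).trans h1
    calc |remd ν α β t₁ N t| * ‖rot a b (GG ψ (N+1+1)) x‖ ≤ (C * (t - t₁)^N) * max C2 0 :=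
          mul_le_mul h1 h2 (norm_nonneg _) h3
      _ = C * max C2 0 * (t - t₁)^N := by ring

end Pool.Agent.Results.MP_b53110_an.InvisibleFlows
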